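import Mathlib

set_option autoImplicit false

/-! Random label subgraphs of Hamming graphs: clique-free graphs with small independence number. -/

namespace Pool.Agent.H41Z.Ham

open Finset

/-- Points of the grid. -/
abbrev Pt (m s : ℕ) : Type := Fin (m + 1) → Fin s

/-- Labellings: one label for each point and each direction. -/
abbrev Lab (m s q : ℕ) : Type := Pt m s × Fin (m + 1) → Fin q

/-- Two points are joined when they lie on a common axis-parallel line and carry different labels
for the direction of that line. -/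
def HG {m s q : ℕ} (l : Lab m s q) : SimpleGraph (Pt m s) where
  Adj x y := ∃ i, (∀ j, j ≠ i → x j = y j) ∧ l (x, i) ≠ l (y, i)
  symm := ⟨by
    rintro x y ⟨i, h1, h2⟩
    exact ⟨i, fun j hj => (h1 j hj).symm, h2.symm⟩⟩
  loopless := ⟨by
    rintro x ⟨i, _, h2⟩
    exact h2 rfl⟩

lemma free_top {m s q : ℕ} (hq : 1 ≤ q) (l : Lab m s q) :
    (⊤ : SimpleGraph (Fin (q + 1))).Free (HG l) := by
  rintro ⟨f⟩
  have hadj : ∀ a b : Fin (q + 1), a ≠ b → (HG l).Adj (f a) (f b) := fun a b hab =>
    f.toHom.map_rel ((SimpleGraph.top_adj a b).2 hab)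
  have hinj : ∀ a b : Fin (q + 1), f a = f b → a = b := fun a b h => f.injective h
  let a0 : Fin (q + 1) := ⟨0, by omega⟩
  let a1 : Fin (q + 1) := ⟨1, by omega⟩
  have h01 : a0 ≠ a1 := by
    intro h
    have := congrArg Fin.val h
    simp [a0, a1] at this
  obtain ⟨i0, hi0, -⟩ := hadj a0 a1 h01
  have hdiff : f a0 i0 ≠ f a1 i0 := by
    intro h
    apply h01
    apply hinj
    funext j
    by_cases hj : j = i0
    · rw [hj]; exact h
    · exact hi0 j hj
  have hall : ∀ a, ∀ j, j ≠ i0 → f a0 j = f a j := by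
    intro a j hj
    by_cases ha0 : a = a0
    · rw [ha0]
    by_cases ha1 : a = a1
    · rw [ha1]; exact hi0 j hj
    obtain ⟨i1, hi1, -⟩ := hadj a0 a (Ne.symm ha0)
    obtain ⟨i2, hi2, -⟩ := hadj a1 a (Ne.symm ha1)
    by_cases e1 : i0 = i1
    · exact hi1 j (e1 ▸ hj)
    by_cases e2 : i0 = i2
    · rw [hi0 j hj]; exact hi2 j (e2 ▸ hj)
    exact absurd ((hi1 i0 e1).trans (hi2 i0 e2).symm) hdiff
  have hlab : Function.Injective (fun a : Fin (q + 1) => l (f a, i0)) := by
    intro a b hab
    by_contra hne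
    obtain ⟨i, hi, hl⟩ := hadj a b hne
    by_cases e : i0 = i
    · subst e; exact hl hab
    · apply hne
      apply hinj
      funext j
      by_cases hj : j = i0
      · rw [hj]; exact hi i0 e
      · exact (hall a j hj).symm.trans (hall b j hj)
  have := Fintype.card_le_of_injective _ hlab
  simp at this

lemma maxDegree_le {m s q : ℕ} (l : Lab m s q) [DecidableRel (HG l).Adj] :
    (HG l).maxDegree ≤ (m + 1) * s := by
  classical
  apply SimpleGraph.maxDegree_le_of_forall_degree_le
  intro x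
  rw [← SimpleGraph.card_neighborFinset_eq_degree]
  have hsub : (HG l).neighborFinset x ⊆
      (univ : Finset (Fin (m + 1) × Fin s)).image (fun p => Function.update x p.1 p.2) := by
    intro y hy
    rw [SimpleGraph.mem_neighborFinset] at hy
    obtain ⟨i, hi, -⟩ := hy
    refine mem_image.2 ⟨(i, y i), mem_univ _, ?_⟩
    funext j
    by_cases hj : j = i
    · subst hj; simp
    · simp [Function.update_of_ne hj, hi j hj]
  calc _ ≤ _ := card_le_card hsub
    _ ≤ (univ : Finset (Fin (m + 1) × Fin s)).card := card_image_le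
    _ = (m + 1) * s := by simp

/-- Labellings for which the set `I` is independent. -/
noncomputable def Bad {m s : ℕ} (q : ℕ) (I : Finset (Pt m s)) : Finset (Lab m s q) := by
  classical
  exact univ.filter fun l => ∀ x ∈ I, ∀ y ∈ I, ¬ (HG l).Adj x y

lemma card_bad {m s q : ℕ} (hq : 1 ≤ q) (I : Finset (Pt m s)) :
    (Bad q I).card ≤ q ^ ((m + 1) * s ^ m) * q ^ ((s ^ (m + 1) - I.card) * (m + 1)) := by
  classical
  let B : (Fin (m + 1) × (Fin m → Fin s) → Fin q) → Finset (Lab m s q) := fun g =>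
    Fintype.piFinset fun p => if p.1 ∈ I then {g (p.2, Fin.removeNth p.2 p.1)} else univ
  have hB : ∀ g, (B g).card = q ^ ((s ^ (m + 1) - I.card) * (m + 1)) := by
    intro g
    simp only [B, Fintype.card_piFinset]
    have : ∀ p : Pt m s × Fin (m + 1),
        (if p.1 ∈ I then ({g (p.2, Fin.removeNth p.2 p.1)} : Finset (Fin q)) else univ).card
          = if p.1 ∈ I then 1 else q := by
      intro p; split_ifs <;> simp
    rw [Finset.prod_congr rfl (fun p _ => this p), Fintype.prod_prod_type]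
    have h2 : ∀ x : Pt m s, (∏ _y : Fin (m + 1), if x ∈ I then 1 else q)
        = if x ∈ I then 1 else q ^ (m + 1) := by
      intro x; split_ifs <;> simp
    have h1 : (univ.filter fun x : Pt m s => ¬ x ∈ I) = Iᶜ := by ext x; simp
    have h3 : Fintype.card (Pt m s) = s ^ (m + 1) := by simp
    show (∏ x : Pt m s, ∏ _y : Fin (m + 1), if x ∈ I then 1 else q) = _
    rw [Finset.prod_congr rfl (fun x _ => h2 x), Finset.prod_ite, prod_const_one, one_mul,
      prod_const, h1, card_compl, h3, ← pow_mul, mul_comm]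
  have hsub : Bad q I ⊆ univ.biUnion B := by
    intro l hl
    simp only [Bad, mem_filter, mem_univ, true_and] at hl
    let g : Fin (m + 1) × (Fin m → Fin s) → Fin q := fun r =>
      if h : ∃ x ∈ I, Fin.removeNth r.1 x = r.2 then l (h.choose, r.1) else ⟨0, hq⟩
    refine mem_biUnion.2 ⟨g, mem_univ _, ?_⟩
    simp only [B, Fintype.mem_piFinset]
    rintro ⟨x, i⟩
    by_cases hx : x ∈ I
    · simp only [hx, if_true, mem_singleton]
      have h : ∃ y ∈ I, Fin.removeNth i y = Fin.removeNth i x := ⟨x, hx, rfl⟩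
      have hg : g (i, Fin.removeNth i x) = l (h.choose, i) := dif_pos h
      rw [hg]
      by_contra hne
      apply hl x hx h.choose h.choose_spec.1
      refine ⟨i, ?_, hne⟩
      intro j hj
      obtain ⟨j', rfl⟩ := Fin.exists_succAbove_eq hj
      exact (congrFun h.choose_spec.2 j').symm
    · simp [hx]
  calc (Bad q I).card ≤ _ := card_le_card hsub
    _ ≤ ∑ g, (B g).card := card_biUnion_le
    _ = _ := by
      simp only [hB, sum_const, card_univ, smul_eq_mul]
      simp

lemma choose_lt (s t : ℕ) (ht : 1 ≤ t) (hs : 1 ≤ s) : (s * t).choose (2 * t) < (3 * s ^ 2) ^ t := by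
  have h1 : (((s * t).choose (2 * t) : ℕ) : ℝ) ≤ ((s * t : ℕ) : ℝ) ^ (2 * t) / ((2 * t).factorial : ℝ) := by
    have := Nat.choose_le_pow_div (α := ℝ) (2 * t) (s * t)
    exact_mod_cast this
  have h2 : (t : ℝ) ^ (2 * t) / ((2 * t).factorial : ℝ) ≤ Real.exp t :=
    Real.pow_div_factorial_le_exp _ (by positivity) _
  have h3 : Real.exp t < 3 ^ t := by
    have : Real.exp t = Real.exp 1 ^ t := by rw [← Real.exp_nat_mul]; simp
    rw [this]
    apply pow_lt_pow_left₀ _ (Real.exp_pos 1).le (by omega)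
    have := Real.exp_one_lt_d9
    linarith
  have hs' : (0 : ℝ) < (s : ℝ) ^ (2 * t) := by positivity
  have h4 : (((s * t).choose (2 * t) : ℕ) : ℝ) < (((3 * s ^ 2) ^ t : ℕ) : ℝ) := by
    calc _ ≤ _ := h1
      _ = (s : ℝ) ^ (2 * t) * ((t : ℝ) ^ (2 * t) / ((2 * t).factorial : ℝ)) := by
        push_cast; rw [mul_pow]; ring
      _ ≤ (s : ℝ) ^ (2 * t) * Real.exp t := by gcongr
      _ < (s : ℝ) ^ (2 * t) * 3 ^ t := by gcongr
      _ = _ := by push_cast; rw [mul_pow, ← pow_mul]; ring
  exact_mod_cast h4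

/-- Some labelling has no independent set of size `2 s ^ m`. -/
lemma exists_lab {m s q : ℕ} (hq : 1 ≤ q) (hs : 2 ≤ s) (h : 3 * s ^ 2 ≤ q ^ (m + 1)) :
    ∃ l : Lab m s q, ∀ I : Finset (Pt m s), (∀ x ∈ I, ∀ y ∈ I, ¬ (HG l).Adj x y) →
      I.card < 2 * s ^ m := by
  classical
  set t := s ^ m with ht
  have ht1 : 1 ≤ t := Nat.one_le_pow _ _ (by omega)
  have hn : s ^ (m + 1) = s * t := by rw [pow_succ, mul_comm]
  have hcardV : (univ : Finset (Pt m s)).card = s * t := by simp [hn]
  let U : Finset (Lab m s q) := (powersetCard (2 * t) (univ : Finset (Pt m s))).biUnion (Bad q)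
  have hU : U.card < (univ : Finset (Lab m s q)).card := by
    have e : (univ : Finset (Lab m s q)).card = q ^ (s * t * (m + 1)) := by simp [hn]
    rw [e]
    have hle : 2 * t ≤ s * t := Nat.mul_le_mul_right _ hs
    calc U.card ≤ ∑ I ∈ powersetCard (2 * t) (univ : Finset (Pt m s)), (Bad q I).card :=
          card_biUnion_le
      _ ≤ ∑ I ∈ powersetCard (2 * t) (univ : Finset (Pt m s)),
            q ^ ((m + 1) * t) * q ^ ((s * t - 2 * t) * (m + 1)) := by
          apply sum_le_sum
          intro I hI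
          have := card_bad hq I
          rwa [(mem_powersetCard.1 hI).2, hn] at this
      _ = (s * t).choose (2 * t) * (q ^ ((m + 1) * t) * q ^ ((s * t - 2 * t) * (m + 1))) := by
          rw [sum_const, card_powersetCard, hcardV, smul_eq_mul]
      _ < (q ^ (m + 1)) ^ t * (q ^ ((m + 1) * t) * q ^ ((s * t - 2 * t) * (m + 1))) := by
          apply Nat.mul_lt_mul_of_pos_right _ (by positivity)
          exact (choose_lt s t ht1 (by omega)).trans_le (Nat.pow_le_pow_left h t)
      _ = q ^ (s * t * (m + 1)) := by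
          rw [← pow_mul, ← pow_add, ← pow_add]
          congr 1
          obtain ⟨u, hu⟩ := Nat.exists_eq_add_of_le hle
          rw [hu, Nat.add_sub_cancel_left]
          ring
  obtain ⟨l, -, hl⟩ := exists_mem_notMem_of_card_lt_card hU
  refine ⟨l, fun I hI => ?_⟩
  by_contra hge
  obtain ⟨J, hJI, hJ⟩ := exists_subset_card_eq (not_lt.1 hge)
  apply hl
  refine mem_biUnion.2 ⟨J, mem_powersetCard.2 ⟨subset_univ _, hJ⟩, ?_⟩
  simp only [Bad, mem_filter, mem_univ, true_and]
  exact fun x hx y hy => hI x (hJI hx) y (hJI hy)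

lemma card_le_of_colorable {V : Type} [Fintype V] (G : SimpleGraph V) (N n : ℕ)
    (h : ∀ I : Finset V, (∀ x ∈ I, ∀ y ∈ I, ¬ G.Adj x y) → I.card ≤ N) (hc : G.Colorable n) :
    Fintype.card V ≤ N * n := by
  classical
  obtain ⟨C⟩ := hc
  have := Finset.card_le_mul_card_image_of_maps_to (s := (univ : Finset V))
    (t := (univ : Finset (Fin n))) (f := fun x => C x) (fun _ _ => mem_univ _) N (by
      intro a _
      apply h
      intro x hx y hy hxy
      have := C.valid hxy
      rw [(mem_filter.1 hx).2, (mem_filter.1 hy).2] at this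
      exact this rfl)
  simpa using this

lemma card_le_of_maxDegree {V : Type} [Fintype V] (G : SimpleGraph V) [DecidableRel G.Adj] (N : ℕ)
    (h : ∀ I : Finset V, (∀ x ∈ I, ∀ y ∈ I, ¬ G.Adj x y) → I.card ≤ N) :
    Fintype.card V ≤ N * (G.maxDegree + 1) := by
  classical
  obtain ⟨I, hI, hmax⟩ := Finset.exists_max_image
    ((univ : Finset (Finset V)).filter fun I => ∀ x ∈ I, ∀ y ∈ I, ¬ G.Adj x y) card
    ⟨∅, by simp⟩
  have hI' := (mem_filter.1 hI).2
  have hsub : (univ : Finset V) ⊆ I.biUnion fun x => insert x (G.neighborFinset x) := by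
    intro v _
    by_contra hv
    simp only [mem_biUnion, mem_insert, SimpleGraph.mem_neighborFinset, not_exists, not_and,
      not_or] at hv
    have hvI : v ∉ I := fun hvI => (hv v hvI).1 rfl
    have := hmax (insert v I) (mem_filter.2 ⟨mem_univ _, by
      intro x hx y hy hxy
      rcases mem_insert.1 hx with hx' | hx' <;> rcases mem_insert.1 hy with hy' | hy'
      · rw [hx', hy'] at hxy; exact G.irrefl hxy
      · rw [hx'] at hxy; exact (hv y hy').2 hxy.symm
      · rw [hy'] at hxy; exact (hv x hx').2 hxy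
      · exact hI' x hx' y hy' hxy⟩)
    rw [card_insert_of_notMem hvI] at this
    omega
  calc Fintype.card V = (univ : Finset V).card := rfl
    _ ≤ _ := card_le_card hsub
    _ ≤ ∑ x ∈ I, (insert x (G.neighborFinset x)).card := card_biUnion_le
    _ ≤ ∑ x ∈ I, (G.maxDegree + 1) := by
      apply sum_le_sum
      intro x _
      refine (card_insert_le _ _).trans ?_
      rw [SimpleGraph.card_neighborFinset_eq_degree]
      exact Nat.succ_le_succ (G.degree_le_maxDegree x)
    _ = I.card * (G.maxDegree + 1) := by rw [sum_const, smul_eq_mul]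
    _ ≤ N * (G.maxDegree + 1) := Nat.mul_le_mul_right _ (h I hI')

theorem main :
    ¬ (∃ c : ℝ, 0 < c ∧
      ∀ (k : ℕ) (F : SimpleGraph (Fin k)), ∀ ε : ℝ, 0 < ε →
        ∃ Δ₀ : ℕ, ∀ Δ : ℕ, Δ₀ ≤ Δ →
          ∀ (V : Type) [Fintype V] (G : SimpleGraph V) [DecidableRel G.Adj],
            F.Free G → G.maxDegree = Δ →
              ∃ n : ℕ, G.Colorable n ∧
                (n : ℝ) ≤ (c + ε) * ((Δ : ℝ) / Real.log (Δ : ℝ))) := by
  classical
  rintro ⟨c, hc, H⟩
  obtain ⟨q0, hq0⟩ := exists_nat_gt (Real.exp (8 * (c + 1)))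
  set q := q0 + 4 with hq
  have hq4 : 4 ≤ q := by omega
  have hlogq : 8 * (c + 1) < Real.log q := by
    rw [Real.lt_log_iff_exp_lt (by positivity)]
    have : (q0 : ℝ) ≤ q := by exact_mod_cast (by omega : q0 ≤ q)
    linarith
  obtain ⟨Δ₀, hΔ₀⟩ := H (q + 1) ⊤ 1 one_pos
  set i := Δ₀ + 2 with hi
  set s := q ^ (i + 1) with hs
  set m := 2 * i + 3 with hm
  have hqi : i < q ^ i := Nat.lt_pow_self (by omega)
  have hs4 : 4 * q ^ i ≤ s := by rw [hs, pow_succ, mul_comm]; exact Nat.mul_le_mul_left _ hq4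
  have hs2 : 2 ≤ s := by omega
  have h3 : 3 * s ^ 2 ≤ q ^ (m + 1) := by
    have : q ^ (m + 1) = q ^ 2 * s ^ 2 := by rw [hs, hm, ← pow_mul, ← pow_add]; congr 1; ring
    rw [this]
    apply Nat.mul_le_mul_right
    nlinarith
  obtain ⟨l, hl⟩ := exists_lab (m := m) (s := s) (q := q) (by omega) hs2 h3
  have hl' : ∀ I : Finset (Pt m s), (∀ x ∈ I, ∀ y ∈ I, ¬ (HG l).Adj x y) → I.card ≤ 2 * s ^ m :=
    fun I hI => (hl I hI).le
  have hcard : Fintype.card (Pt m s) = s ^ m * s := by simp [pow_succ]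
  have hpos : 0 < s ^ m := by positivity
  set D := (HG l).maxDegree with hD
  have hD1 : s ≤ 2 * (D + 1) := by
    have := card_le_of_maxDegree (HG l) _ hl'
    rw [hcard, ← hD, mul_comm 2, mul_assoc] at this
    exact Nat.le_of_mul_le_mul_left this hpos
  have hD2 : q ^ i ≤ D := by omega
  have hD3 : D ≤ (m + 1) * s := maxDegree_le l
  obtain ⟨n, hn, hnle⟩ := hΔ₀ D (by omega) (Pt m s) (HG l) (free_top (by omega) l) rfl
  have hn1 : s ≤ 2 * n := by
    have := card_le_of_colorable (HG l) _ n hl' hn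
    rw [hcard, mul_comm 2, mul_assoc] at this
    exact Nat.le_of_mul_le_mul_left this hpos
  have hlogD : (i : ℝ) * Real.log q ≤ Real.log D := by
    rw [← Real.log_pow]
    apply Real.log_le_log (by positivity)
    exact_mod_cast hD2
  have hi2 : (2 : ℝ) ≤ i := by exact_mod_cast (by omega : 2 ≤ i)
  have hlq : 0 < Real.log q := by linarith
  have hlogpos : 0 < (i : ℝ) * Real.log q := by positivity
  have hD4 : (D : ℝ) ≤ 4 * i * s := by
    have : D ≤ 4 * i * s := hD3.trans (Nat.mul_le_mul_right _ (by omega))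
    exact_mod_cast this
  have h5 : (D : ℝ) / Real.log D ≤ 4 * i * s / (i * Real.log q) :=
    div_le_div₀ (by positivity) hD4 hlogpos hlogD
  have h6 : (4 : ℝ) * i * s / (i * Real.log q) = 4 * s / Real.log q := by
    field_simp
  have h7 : (s : ℝ) ≤ 2 * n := by exact_mod_cast hn1
  have h8 : (n : ℝ) ≤ (c + 1) * (4 * s / Real.log q) := by
    rw [← h6]
    exact hnle.trans (mul_le_mul_of_nonneg_left h5 (by linarith))
  have hspos : (0 : ℝ) < s := by exact_mod_cast (by omega : 0 < s)
  have h9 : (n : ℝ) * Real.log q ≤ (c + 1) * (4 * s) := by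
    rw [← mul_div_assoc, le_div_iff₀ hlq] at h8
    exact h8
  nlinarith

end Pool.Agent.H41Z.Ham
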